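import Pool.Agent.helper91.SI.Spec

set_option autoImplicit false

namespace Pool.Agent.helper91.SI

open Pool.Agent.helper20.IG (IsIndepDom IsISet iGraph)

theorem DBL (hSLD : SLD_stmt) : DBL_stmt := by
  intro V _ G S s v t w hT h1 h2 hst hvw hcom
  obtain ⟨p1, q1⟩ := hSLD V G S s v hT h1
  obtain ⟨p2, q2⟩ := hSLD V G S t w hT h2
  obtain ⟨hS, hs, hv, hsv, hS1⟩ := h1
  obtain ⟨_, ht, hw, htw, hS2⟩ := h2
  have hne : v ≠ w := by
    rintro rfl
    exact hst (p2 s hs hsv)
  have hmem : ∀ u ∈ S, u ≠ s → u ≠ t → u ∈ insert w ((insert v (S.erase s)).erase t) := by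
    intro u hu h3 h4
    exact Finset.mem_insert_of_mem (Finset.mem_erase.2 ⟨h4, Finset.mem_insert_of_mem
      (Finset.mem_erase.2 ⟨h3, hu⟩)⟩)
  have hvt : v ≠ t := fun h => hv (h ▸ ht)
  have hvm : v ∈ insert w ((insert v (S.erase s)).erase t) :=
    Finset.mem_insert_of_mem (Finset.mem_erase.2 ⟨hvt, Finset.mem_insert_self _ _⟩)
  have hwm : w ∈ insert w ((insert v (S.erase s)).erase t) := Finset.mem_insert_self _ _
  have hcase : ∀ a ∈ insert w ((insert v (S.erase s)).erase t),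
      a = w ∨ a = v ∨ (a ∈ S ∧ a ≠ s ∧ a ≠ t) := by
    intro a ha
    rcases Finset.mem_insert.1 ha with h | h
    · exact Or.inl h
    · obtain ⟨h3, h4⟩ := Finset.mem_erase.1 h
      rcases Finset.mem_insert.1 h4 with h5 | h5
      · exact Or.inr (Or.inl h5)
      · obtain ⟨h6, h7⟩ := Finset.mem_erase.1 h5
        exact Or.inr (Or.inr ⟨h7, h6, h3⟩)
  refine ⟨hne, ⟨?_, ?_⟩, ?_⟩
  · intro a ha b hb hab
    rcases hcase a ha with rfl | rfl | ⟨a1, a2, a3⟩
    · rcases hcase b hb with rfl | rfl | ⟨b1, b2, b3⟩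
      · exact G.loopless.irrefl _ hab
      · exact hvw hab.symm
      · exact b3 (p2 b b1 hab.symm)
    · rcases hcase b hb with rfl | rfl | ⟨b1, b2, b3⟩
      · exact hvw hab
      · exact G.loopless.irrefl _ hab
      · exact b2 (p1 b b1 hab.symm)
    · rcases hcase b hb with rfl | rfl | ⟨b1, b2, b3⟩
      · exact a3 (p2 a a1 hab)
      · exact a2 (p1 a a1 hab)
      · exact hS.1.1 a a1 b b1 hab
  · intro y hy
    by_cases hys : y = s
    · exact ⟨v, hvm, hys ▸ hsv.symm⟩
    by_cases hyt : y = t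
    · exact ⟨w, hwm, hyt ▸ htw.symm⟩
    have hyS : y ∉ S := fun h => hy (hmem y h hys hyt)
    have hyv : y ≠ v := fun h => hy (h ▸ hvm)
    have hyw : y ≠ w := fun h => hy (h ▸ hwm)
    have hfin : G.Adj s y → G.Adj t y →
        ∃ u ∈ insert w ((insert v (S.erase s)).erase t), G.Adj u y := by
      intro h3 h4
      obtain ⟨u, hu, hus, hut, huy⟩ := hcom y h3 h4
      exact ⟨u, hmem u hu hus hut, huy⟩
    obtain ⟨u, hu, huy⟩ := hS.1.2 y hyS
    by_cases hus : u = s
    · rw [hus] at huy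
      obtain ⟨u', hu', hu's, hu'y⟩ := q1 y huy hyv
      by_cases hu't : u' = t
      · exact hfin huy (hu't ▸ hu'y)
      · exact ⟨u', hmem u' hu' hu's hu't, hu'y⟩
    by_cases hut : u = t
    · rw [hut] at huy
      obtain ⟨u', hu', hu't, hu'y⟩ := q2 y huy hyw
      by_cases hu's : u' = s
      · exact hfin (hu's ▸ hu'y) huy
      · exact ⟨u', hmem u' hu' hu's hu't, hu'y⟩
    exact ⟨u, hmem u hu hus hut, huy⟩
  · intro T hT'
    refine le_trans ?_ (hS.2 T hT')
    have c1 := Finset.card_insert_le w ((insert v (S.erase s)).erase t)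
    have htB : t ∈ insert v (S.erase s) :=
      Finset.mem_insert_of_mem (Finset.mem_erase.2 ⟨hst.symm, ht⟩)
    have c2 := Finset.card_erase_add_one htB
    have c3 := Finset.card_insert_le v (S.erase s)
    have c4 := Finset.card_erase_add_one hs
    omega

end Pool.Agent.helper91.SI
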