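import Pool.Agent.helper91.SI.Spec4

set_option autoImplicit false

namespace Pool.Agent.helper91.SI

open Pool.Agent.helper20.IG (IsIndepDom IsISet iGraph)

open Finset

theorem T6S : T6S_stmt := by
  intro V _ G S s v hW h1 h2
  obtain ⟨hI, hinj, hs⟩ := hW
  have e01 : (0 : ZMod 6) + 1 = 1 := rfl
  have e12 : (1 : ZMod 6) + 1 = 2 := rfl
  have e23 : (2 : ZMod 6) + 1 = 3 := rfl
  have e34 : (3 : ZMod 6) + 1 = 4 := rfl
  have e45 : (4 : ZMod 6) + 1 = 5 := rfl
  have e50 : (5 : ZMod 6) + 1 = 0 := rfl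
  have f03 : (0 : ZMod 6) + 3 = 3 := rfl
  have f14 : (1 : ZMod 6) + 3 = 4 := rfl
  have f25 : (2 : ZMod 6) + 3 = 5 := rfl
  obtain ⟨a1, a2, a3, a4⟩ := hs 0
  obtain ⟨b1, b2, b3, b4⟩ := hs 1
  obtain ⟨c1, c2, c3, c4⟩ := hs 2
  obtain ⟨a1', a2', _, a4'⟩ := hs 3
  obtain ⟨b1', b2', _, b4'⟩ := hs 4
  obtain ⟨c1', c2', _, c4'⟩ := hs 5
  have g0 := h2 0
  have g1 := h2 1
  have g2 := h2 2
  rw [f03] at g0
  rw [f14] at g1
  rw [f25] at g2
  have n0 := h1 0
  have n1 := h1 1
  have n2 := h1 2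
  have n3 := h1 3
  have n4 := h1 4
  have n5 := h1 5
  rw [e01] at a4 n0
  rw [e12] at b4 n1
  rw [e23] at c4 n2
  rw [e34] at a4' n3
  rw [e45] at b4' n4
  rw [e50] at c4' n5
  rw [g0.1] at n2 a1' a4'
  rw [g0.2] at n3 a2' a4'
  rw [g1.1] at n3 b1' b4'
  rw [g1.2] at n4 b2' b4'
  rw [g2.1] at n4 c1' c4'
  rw [g2.2] at n5 c2' c4'
  have hab := a3.ne
  have hbb := b3.ne
  have hcc := c3.ne
  generalize s 0 = a at *
  generalize v 0 = a' at *
  generalize s 1 = b at *
  generalize v 1 = b' at *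
  generalize s 2 = c at *
  generalize v 2 = c' at *
  clear g0 g1 g2 hs h1 h2 hI hinj
  -- memberships
  have hb0 : b ∈ S 0 ∧ b ≠ a := by
    rw [a4, mem_insert, mem_erase] at b1
    rcases b1 with h | h
    · exact absurd h n0
    · exact ⟨h.2, h.1⟩
  have hc1 : c ∈ S 1 ∧ c ≠ b := by
    rw [b4, mem_insert, mem_erase] at c1
    rcases c1 with h | h
    · exact absurd h n1
    · exact ⟨h.2, h.1⟩
  have hca' : c ≠ a' := by
    rintro rfl
    rw [c4, mem_insert, mem_erase] at a1'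
    rcases a1' with h | h
    · exact n2 h
    · exact h.1 rfl
  have hc0 : c ∈ S 0 ∧ c ≠ a := by
    have h := hc1.1
    rw [a4, mem_insert, mem_erase] at h
    rcases h with h | h
    · exact absurd h hca'
    · exact ⟨h.2, h.1⟩
  have ha'1 : a' ∈ S 1 := by rw [a4]; exact mem_insert_self _ _
  have hb'2 : b' ∈ S 2 := by rw [b4]; exact mem_insert_self _ _
  have hc'3 : c' ∈ S 3 := by rw [c4]; exact mem_insert_self _ _
  have hb'a' : b' ≠ a' := fun h => b2 (h ▸ ha'1)
  have hc'b' : c' ≠ b' := fun h => c2 (h ▸ hb'2)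
  have hc'a : c' ≠ a := fun h => a2' (h ▸ hc'3)
  have hb'0 : b' ∉ S 0 := by
    intro h
    apply b2
    rw [a4, mem_insert, mem_erase]
    exact Or.inr ⟨n3, h⟩
  have hc'0 : c' ∉ S 0 := by
    intro h
    apply c2
    rw [b4, mem_insert, mem_erase, a4, mem_insert, mem_erase]
    exact Or.inr ⟨n4, Or.inr ⟨hc'a, h⟩⟩
  have r0 : S 0 = (S 0 \ {a, b, c}) ∪ {a, b, c} := by
    rw [Finset.sdiff_union_of_subset]
    intro x hx
    simp only [mem_insert, mem_singleton] at hx
    rcases hx with rfl | rfl | rfl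
    · exact a1
    · exact hb0.1
    · exact hc0.1
  obtain ⟨R, hR⟩ : ∃ R, R = S 0 \ {a, b, c} := ⟨_, rfl⟩
  have k1 : a ∉ R := by rw [hR]; simp
  have k2 : b ∉ R := by rw [hR]; simp
  have k3 : c ∉ R := by rw [hR]; simp
  have k4 : a' ∉ R := fun h => a2 (mem_sdiff.1 (hR ▸ h)).1
  have k5 : b' ∉ R := fun h => hb'0 (mem_sdiff.1 (hR ▸ h)).1
  have k6 : c' ∉ R := fun h => hc'0 (mem_sdiff.1 (hR ▸ h)).1
  rw [← hR] at r0
  have hx : ∀ x y : V, ∀ T : Finset V, x ∉ T → insert y ((insert x T).erase x) = insert y T := by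
    intro x y T h
    rw [Finset.erase_insert h]
  have s0 : S 0 = insert a (insert b (insert c R)) := by
    rw [r0]
    ext x
    simp only [mem_union, mem_insert, mem_singleton]
    tauto
  have s1 : S 1 = insert a' (insert b (insert c R)) := by
    rw [a4, s0, hx]
    simp only [mem_insert, not_or]
    exact ⟨hb0.2.symm, hc0.2.symm, k1⟩
  have s2 : S 2 = insert b' (insert a' (insert c R)) := by
    rw [b4, s1, Finset.insert_comm a' b, hx]
    simp only [mem_insert, not_or]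
    exact ⟨n0, hc1.2.symm, k2⟩
  have s3 : S 3 = insert c' (insert b' (insert a' R)) := by
    rw [c4, s2, Finset.insert_comm a' c, Finset.insert_comm b' c, hx]
    simp only [mem_insert, not_or]
    exact ⟨n1, hca', k3⟩
  have s4 : S 4 = insert a (insert c' (insert b' R)) := by
    rw [a4', s3, Finset.insert_comm b' a', Finset.insert_comm c' a', hx]
    simp only [mem_insert, not_or]
    exact ⟨n2, hb'a'.symm, k4⟩
  have s5 : S 5 = insert b (insert a (insert c' R)) := by
    rw [b4', s4, Finset.insert_comm c' b', Finset.insert_comm a b', hx]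
    simp only [mem_insert, not_or]
    exact ⟨n3, hc'b'.symm, k5⟩
  refine ⟨R, ?_, ?_, ?_, ?_, ?_, ?_, ?_, ?_⟩
  · simp only [List.nodup_cons, List.mem_cons, List.not_mem_nil, not_or, or_false,
      not_false_eq_true, List.nodup_nil, and_true]
    exact ⟨⟨hab, hb0.2.symm, n3.symm, hc0.2.symm, hc'a.symm⟩, ⟨n0.symm, hb'a'.symm, hca'.symm, n2⟩,
      ⟨hbb, hc1.2.symm, n4.symm⟩, ⟨n1.symm, hc'b'.symm⟩, hcc⟩
  · intro w hw
    simp only [List.mem_cons, List.not_mem_nil, or_false] at hw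
    rcases hw with rfl | rfl | rfl | rfl | rfl | rfl <;> assumption
  · rw [s0]
    ext x
    simp only [mem_union, mem_insert, mem_singleton]
    tauto
  · rw [s1]
    ext x
    simp only [mem_union, mem_insert, mem_singleton]
    tauto
  · rw [s2]
    ext x
    simp only [mem_union, mem_insert, mem_singleton]
    tauto
  · rw [s3]
    ext x
    simp only [mem_union, mem_insert, mem_singleton]
    tauto
  · rw [s4]
    ext x
    simp only [mem_union, mem_insert, mem_singleton]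
    tauto
  · rw [s5]
    ext x
    simp only [mem_union, mem_insert, mem_singleton]
    tauto

end Pool.Agent.helper91.SI
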